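import Pool.Agent.N718.GC.Stm
import Pool.Agent.W335.BMX.Odd
import Pool.Agent.W975.BMX.Two

/-!
# Local solubility of the norm equations (project GC, part LOCN)
-/

set_option autoImplicit false
set_option linter.all false

namespace Pool.Agent.N524.GC

open Pool.Agent.W313.BMX Pool.Agent.N718.GC

/-- two units which are congruent modulo `p ^ 3` differ by a square -/
theorem unit_sq {p : ℕ} [hp : Fact p.Prime] {m n : ℤ} (hm : ¬ (p : ℤ) ∣ m)
    (hmn : (p : ℤ) ^ 3 ∣ n - m) : ∃ c : ℚ_[p], c ≠ 0 ∧ (n : ℚ_[p]) = (m : ℚ_[p]) * c ^ 2 := by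
  have hpn : ¬ (p : ℤ) ∣ n := by
    intro h
    apply hm
    have h1 : (p : ℤ) ∣ n - m := (dvd_pow_self _ (by norm_num)).trans hmn
    have : m = n - (n - m) := by ring
    rw [this]
    exact dvd_sub h h1
  have hsq : IsSquare ((m * n : ℤ) : ℚ_[p]) := by
    by_cases hp2 : p = 2
    · subst hp2
      have hm' : m % 2 = 1 := by
        have : ¬ (2 : ℤ) ∣ m := by simpa using hm
        omega
      have h8 : (8 : ℤ) ∣ n - m := by simpa using hmn
      have := Pool.Agent.W975.BMX.two1 m n hm' (by omega)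
      exact this
    · apply Pool.Agent.W335.BMX.odd1 p hp2 m n hm hpn
      have h1 : (p : ℤ) ∣ n - m := (dvd_pow_self _ (by norm_num)).trans hmn
      have h2 : ((m : ℤ) : ZMod p) = ((n : ℤ) : ZMod p) := by
        rw [ZMod.intCast_eq_intCast_iff_dvd_sub]
        exact h1
      unfold legendreSym
      rw [h2]
  obtain ⟨r, hr⟩ := hsq
  have hm0 : (m : ℚ_[p]) ≠ 0 := by
    intro h
    have : m = 0 := by exact_mod_cast h
    exact hm (this ▸ dvd_zero _)
  have hn0 : (n : ℚ_[p]) ≠ 0 := by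
    intro h
    have : n = 0 := by exact_mod_cast h
    exact hpn (this ▸ dvd_zero _)
  push_cast at hr
  have hr0 : r ≠ 0 := by
    rintro rfl
    rw [mul_zero] at hr
    exact mul_ne_zero hm0 hn0 hr
  refine ⟨r / m, div_ne_zero hr0 hm0, ?_⟩
  have : (m : ℚ_[p]) * (r / m) ^ 2 = r * r / m := by field_simp
  rw [this, ← hr]
  field_simp

/-- an integer with trivial Legendre symbol is a square -/
theorem leg_sq {p : ℕ} [hp : Fact p.Prime] (hp2 : p ≠ 2) {m : ℤ} (hm : ¬ (p : ℤ) ∣ m)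
    (h : jacobiSym m p = 1) : IsSquare ((m : ℤ) : ℚ_[p]) := by
  have h1 : ¬ (p : ℤ) ∣ 1 := by
    intro h
    have h2 : (p : ℤ) ≤ 1 := Int.le_of_dvd one_pos h
    have := hp.out.one_lt
    omega
  have := Pool.Agent.W335.BMX.odd1 p hp2 m 1 hm h1 (by
    rw [jacobiSym.legendreSym.to_jacobiSym, h, legendreSym.at_one])
  simpa using this

/-- if `a` is a nonzero square then every element is a norm -/
theorem nm_of_sq {K : Type} [Field K] (h2 : (2 : K) ≠ 0) {a N d : K} (hd : d ≠ 0)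
    (ha : a = d * d) : Nm a N := by
  refine ⟨(N + 1) / 2, (N - 1) / (2 * d), ?_⟩
  rw [ha]
  field_simp
  ring

theorem nm_mul_sq {K : Type} [Field K] (a N z : K) (h : Nm a N) : Nm a (N * z ^ 2) := by
  obtain ⟨y, x, hx⟩ := h
  refine ⟨y * z, x * z, ?_⟩
  rw [← hx]
  ring

theorem locn_1 (l : ℕ) [hl : Fact l.Prime] (a N : ℤ) (hl2 : l ≠ 2) (ha : ¬ (l : ℤ) ∣ a)
    (hN : N ≠ 0) (h : Even (padicValNat l N.natAbs) ∨ jacobiSym a l = 1) :
    Nm (a : ℚ_[l]) (N : ℚ_[l]) := by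
  have h2 : (2 : ℚ_[l]) ≠ 0 := two_ne_zero
  have ha0 : (a : ℚ_[l]) ≠ 0 := by
    intro h
    have : a = 0 := by exact_mod_cast h
    exact ha (this ▸ dvd_zero _)
  rcases h with h | h
  · obtain ⟨k, hk⟩ := h
    -- write `N = l ^ (2 k) u`
    have hN' : N.natAbs ≠ 0 := by simpa using hN
    have h1 : (l ^ (k + k) : ℕ) ∣ N.natAbs := by
      rw [← hk]; exact pow_padicValNat_dvd
    have h1' : ((l : ℤ) ^ (k + k)) ∣ N := by
      have := Int.natCast_dvd.mpr h1
      simpa using this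
    obtain ⟨u, hu⟩ := h1'
    have hlu : ¬ (l : ℤ) ∣ u := by
      rintro ⟨v, rfl⟩
      have h3 : (l : ℤ) ^ (k + k + 1) ∣ N := ⟨v, by rw [hu]; ring⟩
      have h4 : l ^ (k + k + 1) ∣ N.natAbs := by
        have := Int.natAbs_dvd_natAbs.mpr h3
        simpa [Int.natAbs_pow] using this
      have h5 := (padicValNat_dvd_iff_le hN').mp h4
      omega
    have hS := Pool.Agent.W335.BMX.odd2 l hl2 a u ha hlu
    have key : Nm (a : ℚ_[l]) (u : ℚ_[l]) := by
      obtain ⟨x, y, z, hne, hz⟩ := hS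
      by_cases hy : y = 0
      · subst hy
        have hx : x ≠ 0 := by
          rintro rfl
          rcases hne with h | h | h
          · exact h rfl
          · exact h rfl
          · apply h
            have : z ^ 2 = 0 := by rw [hz]; ring
            exact pow_eq_zero_iff (two_ne_zero) |>.mp this
        have hz' : z ^ 2 = (a : ℚ_[l]) * x ^ 2 := by rw [hz]; ring
        have hz0 : z ≠ 0 := by
          rintro rfl
          have : (a : ℚ_[l]) * x ^ 2 = 0 := by rw [← hz']; ring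
          rcases mul_eq_zero.mp this with h | h
          · exact ha0 h
          · exact hx (pow_eq_zero_iff (two_ne_zero) |>.mp h)
        apply nm_of_sq h2 (d := z / x) (div_ne_zero hz0 hx)
        have : z / x * (z / x) = z ^ 2 / x ^ 2 := by field_simp
        rw [this, hz']
        field_simp
      · refine ⟨z / y, x / y, ?_⟩
        have : (z / y) ^ 2 - (a : ℚ_[l]) * (x / y) ^ 2 = (z ^ 2 - a * x ^ 2) / y ^ 2 := by
          field_simp
        rw [this, hz]
        field_simp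
        ring
    have := nm_mul_sq _ _ ((l : ℚ_[l]) ^ k) key
    have e : (N : ℚ_[l]) = (u : ℚ_[l]) * ((l : ℚ_[l]) ^ k) ^ 2 := by
      rw [hu]
      push_cast
      ring
    rw [e]
    exact this
  · obtain ⟨d, hd⟩ := leg_sq hl2 ha h
    apply nm_of_sq h2 (d := d) _ hd
    rintro rfl
    apply ha0
    rw [hd]
    ring

theorem locn_2 (p : ℕ) [hp : Fact p.Prime] (F F' : ℤ) (k : ℕ) (hF : ¬ (p : ℤ) ^ (k + 1) ∣ F)
    (hFF : (p : ℤ) ^ (k + 3) ∣ F - F') : ∃ z : ℚ_[p], z ≠ 0 ∧ (F' : ℚ_[p]) = F * z ^ 2 := by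
  have hF0 : F ≠ 0 := by
    rintro rfl
    exact hF (dvd_zero _)
  have hp1 : 1 < p := hp.out.one_lt
  have hfin : FiniteMultiplicity (p : ℤ) F := by
    rw [Int.finiteMultiplicity_iff]
    refine ⟨?_, hF0⟩
    simp
    omega
  obtain ⟨m, hm, hpm⟩ := hfin.exists_eq_pow_mul_and_not_dvd
  set j := multiplicity (p : ℤ) F with hj
  have hjk : j ≤ k := by
    by_contra hcon
    push Not at hcon
    apply hF
    rw [hm]
    exact Dvd.dvd.mul_right (pow_dvd_pow _ (by omega)) _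
  obtain ⟨t, ht⟩ := hFF
  have hp0 : (p : ℤ) ≠ 0 := by
    have := hp.out.ne_zero
    exact_mod_cast this
  obtain ⟨c, hc, hcn⟩ := unit_sq (p := p) (m := m) (n := m - (p : ℤ) ^ (k + 3 - j) * t) hpm
    ⟨- (p : ℤ) ^ (k - j) * t, by
      have : k + 3 - j = (k - j) + 3 := by omega
      rw [this]; ring⟩
  refine ⟨c, hc, ?_⟩
  have hF' : F' = (p : ℤ) ^ j * (m - (p : ℤ) ^ (k + 3 - j) * t) := by
    have h1 : F' = F - (p : ℤ) ^ (k + 3) * t := by rw [← ht]; ring
    have h2 : (p : ℤ) ^ (k + 3) = (p : ℤ) ^ j * (p : ℤ) ^ (k + 3 - j) := by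
      rw [← pow_add]; congr 1; omega
    rw [h1, h2]
    nth_rewrite 1 [hm]
    ring
  have e1 : (F' : ℚ_[p]) = (p : ℚ_[p]) ^ j * ((m - (p : ℤ) ^ (k + 3 - j) * t : ℤ) : ℚ_[p]) := by
    rw [hF']
    push_cast
    ring
  have e2 : (F : ℚ_[p]) = (p : ℚ_[p]) ^ j * (m : ℚ_[p]) := by
    conv_lhs => rw [hm]
    push_cast
    ring
  rw [e1, e2, hcn]
  ring

theorem locn_4 (a N : ℝ) (ha : a ≠ 0) (hN : N ≠ 0) : Nm a N ↔ 0 < a ∨ 0 < N := by
  constructor
  · rintro ⟨y, z, h⟩
    by_contra hcon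
    push Not at hcon
    obtain ⟨h1, h2⟩ := hcon
    have h2' : N < 0 := lt_of_le_of_ne h2 hN
    nlinarith [sq_nonneg y, sq_nonneg z, mul_nonneg (neg_nonneg.mpr h1) (sq_nonneg z)]
  · rintro (h | h)
    · have hs : Real.sqrt a ≠ 0 := (Real.sqrt_pos.mpr h).ne'
      exact nm_of_sq two_ne_zero hs (Real.mul_self_sqrt h.le).symm
    · refine ⟨Real.sqrt N, 0, ?_⟩
      rw [Real.sq_sqrt h.le]
      ring

theorem locn_ : Pool.Agent.N718.GC.S_LOCN := by
  refine ⟨?_, ?_, ?_, ?_⟩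
  · intro l hl a N h1 h2 h3 h4
    exact locn_1 l a N h1 h2 h3 h4
  · intro p hp F F' k h1 h2
    exact locn_2 p F F' k h1 h2
  · intro K hK a N z h
    exact nm_mul_sq a N z h
  · intro a N h1 h2
    exact locn_4 a N h1 h2

end Pool.Agent.N524.GC
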